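import Pool.Agent.H50.ODG.Targets

/-!
# Row ISO: isosceles triangles
-/

set_option autoImplicit false

open Pool.Agent.H57.CP Pool.Agent.H39.TO Pool.Agent.H39.OD Pool.Agent.H50.ODG

namespace Pool.Agent.H17.ODG

theorem mk_smul_sub (c : ℝ) (a b z : V4) : mk (c • (a - b)) z = c * (mk a z - mk b z) := by
  unfold mk
  simp only [Pi.smul_apply, Pi.sub_apply, smul_eq_mul]
  ring

theorem mk_smul_sub' (c : ℝ) (a b z : V4) : mk z (c • (a - b)) = c * (mk z a - mk z b) := by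
  unfold mk
  simp only [Pi.smul_apply, Pi.sub_apply, smul_eq_mul]
  ring

theorem refl_apply' (a z : V4) : refl a z = z + (2 * mk a z) • a := by
  funext i
  rfl

theorem pf_ISO (hLNE : T_LNE) (hLOR : T_LOR) (_hMKI : T_MKI) : T_ISO := by
  intro x x' n0 n1 n2 c hNo h00 h11 h22 h02 h12 hx0 hx2 hx1' hx2' hIn hn
  have hcomm : ∀ a b : V4, mk a b = mk b a := by
    intro a b
    unfold mk
    ring
  set n : V4 := c • (n0 - n1) with hndef
  obtain ⟨hL, h1⟩ := hLOR.2.2 n hn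
  have e1 : 2 * c ^ 2 * (1 + mk n0 n1) = 1 := by
    have h2 := hn
    rw [hndef, mk_smul_sub, mk_smul_sub', mk_smul_sub', h00, h11, hcomm n1 n0] at h2
    linear_combination -h2
  have e2 : refl n n0 = n1 := by
    rw [refl_apply', hndef, mk_smul_sub, h00, hcomm n1 n0]
    have h3 : (2 * (c * (-1 - mk n0 n1))) • c • (n0 - n1) = -(n0 - n1) := by
      rw [smul_smul]
      have h4 : 2 * (c * (-1 - mk n0 n1)) * c = -1 := by linear_combination -e1
      rw [h4, neg_one_smul]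
    rw [h3]
    abel
  have e3 : refl n n2 = n2 := by
    rw [refl_apply', hndef, mk_smul_sub, h02, sub_self, mul_zero, mul_zero, zero_smul, add_zero]
  have hy1 : mk (refl n x.1) (refl n x.1) = 1 := by
    rw [hL.1]
    exact x.2.1
  obtain ⟨y, hy⟩ : ∃ y : H3, y.1 = refl n x.1 := ⟨⟨refl n x.1, hy1, hL.2 x⟩, rfl⟩
  have hyn1 : mk y.1 n1 = 0 := by
    rw [hy, ← e2, hL.1]
    exact hx0
  have hyn2 : mk y.1 n2 = 0 := by
    rw [hy]
    calc mk (refl n x.1) n2 = mk (refl n x.1) (refl n n2) := by rw [e3]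
      _ = mk x.1 n2 := hL.1 _ _
      _ = 0 := hx2
  have hIn' : InS y x' n0 n1 n2 := by
    obtain ⟨r, s, t, h⟩ := hIn
    refine ⟨r + 2 * mk n x.1 * c, s - 2 * mk n x.1 * c, t, ?_⟩
    have h5 : y.1 - x'.1 = (x.1 - x'.1) + (2 * mk n x.1) • n := by
      rw [hy, refl_apply']
      abel
    rw [h5, h]
    generalize mk n x.1 = μ
    rw [hndef]
    funext i
    simp only [Pi.add_apply, Pi.smul_apply, Pi.sub_apply, smul_eq_mul]
    ring
  have h6 := hLNE y x' n0 n1 n2 hNo hyn1 hyn2 hx1' hx2' h11 h22 h12 hIn'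
  rw [← hy, h6]

end Pool.Agent.H17.ODG
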