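import Pool.Agent.H50.ODG.Targets

/-!
# Row VSR: elementary changes of the vertex stabilizer conditions
-/

set_option autoImplicit false

open Pool.Agent.H57.CP Pool.Agent.H39.TO Pool.Agent.H39.OD Pool.Agent.H50.ODG

namespace Pool.Agent.H17.ODG

theorem mk_comm' (x y : V4) : mk x y = mk y x := by
  unfold mk
  ring

theorem refl_neg' (m : V4) : refl (-m) = refl m := by
  apply LinearMap.ext
  intro x
  funext i
  change x i + 2 * mk (-m) x * (-m) i = x i + 2 * mk m x * m i
  have h1 : mk (-m) x = -mk m x := by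
    unfold mk
    simp only [Pi.neg_apply]
    ring
  rw [h1, Pi.neg_apply]
  ring

/-- conjugation of a reflection by a reflection -/
theorem refl_conj {r : V4} (hL : Lor (refl r)) (h1 : refl r * refl r = 1) (m : V4) :
    refl r * refl m * refl r = refl (refl r m) := by
  apply LinearMap.ext
  intro x
  have h2 : ∀ z : V4, refl r (refl r z) = z := by
    intro z
    have h3 := congrArg (fun A : V4 →ₗ[ℝ] V4 => A z) h1
    exact h3
  have h4 : mk m (refl r x) = mk (refl r m) x := by
    have h5 := hL.1 m (refl r x)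
    rw [h2 x] at h5
    exact h5.symm
  have h6 : ∀ (a z : V4), refl a z = z + (2 * mk a z) • a := by
    intro a z
    funext i
    rfl
  change refl r (refl m (refl r x)) = refl (refl r m) x
  rw [h6 m (refl r x), map_add, h2 x, map_smul, h4, h6 (refl r m) x]

theorem vs_mono {Γ Δ S S' : Submonoid (Module.End ℝ V4)} {x x' : H3} (hle : Δ ≤ Γ)
    (h : VS Γ S S' x x') : VS Δ S S' x x' where
  st := fun g hg => h.st g (hle hg)
  st' := fun g hg => h.st' g (hle hg)
  ne := fun g hg => h.ne g (hle hg)
  di := by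
    obtain ⟨ε, h0, h1⟩ := h.di
    exact ⟨ε, h0, fun g hg => h1 g (hle hg)⟩

theorem vs_symm {Γ S S' : Submonoid (Module.End ℝ V4)} {x x' : H3}
    (hinv : ∀ g ∈ Γ, ∃ h ∈ Γ, h * g = 1 ∧ g * h = 1 ∧ Lor g ∧ Lor h)
    (h : VS Γ S S' x x') : VS Γ S' S x' x where
  st := h.st'
  st' := h.st
  ne := by
    intro g hg h1
    obtain ⟨k, hk, hkg, -, -, -⟩ := hinv g hg
    apply h.ne k hk
    rw [← h1]
    exact congrArg (fun A : V4 →ₗ[ℝ] V4 => A x'.1) hkg
  di := by
    obtain ⟨ε, h0, h1⟩ := h.di
    refine ⟨ε, h0, fun g hg => ⟨(h1 g hg).2.1, (h1 g hg).1, ?_⟩⟩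
    obtain ⟨k, hk, hkg, -, -, hkL⟩ := hinv g hg
    have h2 : k (g x.1) = x.1 := congrArg (fun A : V4 →ₗ[ℝ] V4 => A x.1) hkg
    have h3 := hkL.1 x'.1 (g x.1)
    rw [h2] at h3
    rw [← h3, mk_comm']
    exact (h1 k hk).2.2

theorem conj_mem {r m n : V4} (hL : Lor (refl r)) (h1 : refl r * refl r = 1)
    {h : Module.End ℝ V4} (hh : h ∈ C2 m n) :
    refl r * h * refl r ∈ C2 (refl r m) (refl r n) := by
  induction hh using Submonoid.closure_induction with
  | mem a ha =>
    rcases ha with rfl | ha
    · rw [refl_conj hL h1]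
      exact Submonoid.subset_closure (Set.mem_insert _ _)
    · rw [Set.mem_singleton_iff] at ha
      rw [ha, refl_conj hL h1]
      exact Submonoid.subset_closure (Set.mem_insert_of_mem _ (Set.mem_singleton _))
  | one =>
    rw [mul_one, h1]
    exact Submonoid.one_mem _
  | mul a b _ _ ha hb =>
    have h2 : refl r * (a * b) * refl r = (refl r * a * refl r) * (refl r * b * refl r) := by
      calc refl r * (a * b) * refl r = refl r * a * 1 * b * refl r := by
            rw [mul_one, mul_assoc (refl r) a b]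
        _ = refl r * a * (refl r * refl r) * b * refl r := by rw [h1]
        _ = (refl r * a * refl r) * (refl r * b * refl r) := by simp only [mul_assoc]
    rw [h2]
    exact Submonoid.mul_mem _ ha hb

theorem vs_refl {Γ S : Submonoid (Module.End ℝ V4)} {m n r : V4} {x y x' : H3}
    (hL : Lor (refl r)) (h1 : refl r * refl r = 1) (hr : refl r ∈ Γ) (hx' : x'.1 = refl r y.1)
    (h : VS Γ S (C2 m n) x y) : VS Γ S (C2 (refl r m) (refl r n)) x x' := by
  have h2 : ∀ z : V4, refl r (refl r z) = z := by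
    intro z
    exact congrArg (fun A : V4 →ₗ[ℝ] V4 => A z) h1
  have hc : ∀ g ∈ Γ, refl r * g * refl r ∈ Γ := fun g hg =>
    Submonoid.mul_mem _ (Submonoid.mul_mem _ hr hg) hr
  have ha : ∀ g : Module.End ℝ V4, (refl r * g * refl r) y.1 = refl r (g x'.1) := by
    intro g
    rw [hx']
    rfl
  have hy : ∀ g : Module.End ℝ V4, (refl r * g * refl r) y.1 = y.1 → g x'.1 = x'.1 := by
    intro g hg
    rw [ha] at hg
    rw [← h2 (g x'.1), hg, hx']
  refine ⟨h.st, ?_, ?_, ?_⟩
  · intro g hg hgx
    have h3 : (refl r * g * refl r) y.1 = y.1 := by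
      rw [ha, hgx, hx', h2]
    have h4 := conj_mem hL h1 (h.st' _ (hc g hg) h3)
    have h5 : refl r * (refl r * g * refl r) * refl r = g := by
      calc refl r * (refl r * g * refl r) * refl r = (refl r * refl r) * g * (refl r * refl r) := by
            simp only [mul_assoc]
        _ = g := by rw [h1, one_mul, mul_one]
    rw [h5] at h4
    exact h4
  · intro g hg hgx
    apply h.ne (refl r * g) (Submonoid.mul_mem _ hr hg)
    change refl r (g x.1) = y.1
    rw [hgx, hx', h2]
  · obtain ⟨ε, h0, h3⟩ := h.di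
    refine ⟨ε, h0, fun g hg => ⟨(h3 g hg).1, ?_, ?_⟩⟩
    · intro hne
      have h4 := (h3 _ (hc g hg)).2.1 (fun h5 => hne (hy g h5))
      rw [ha] at h4
      have h5 := hL.1 y.1 (refl r (g x'.1))
      rw [h2, ← hx'] at h5
      rw [h5]
      exact h4
    · have h4 := (h3 (g * refl r) (Submonoid.mul_mem _ hg hr)).2.2
      have h5 : (g * refl r) y.1 = g x'.1 := by
        rw [hx']
        rfl
      rw [h5] at h4
      exact h4

theorem pf_VSR (hLOR : T_LOR) : T_VSR := by
  refine ⟨fun Γ Δ S S' x x' hle h => vs_mono hle h, fun Γ S S' x x' hinv h => vs_symm hinv h,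
    ?_, ?_⟩
  · intro Γ S m n r x y x' hr hmem hx' h
    obtain ⟨hL, h1⟩ := hLOR.2.2 r hr
    exact vs_refl hL h1 hmem hx' h
  · intro m n
    constructor
    · change Submonoid.closure {refl m, refl n} = Submonoid.closure {refl n, refl m}
      rw [Set.pair_comm]
    · change Submonoid.closure {refl (-m), refl n} = Submonoid.closure {refl m, refl n}
      rw [refl_neg']

end Pool.Agent.H17.ODG
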